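import Pool.Agent.Lib.MP_3eb465_an.Main

/-!
# Uniqueness of positive bounded solutions fails on uniformly smooth epigraphs

In every dimension `d = m + 1 ≥ 5` there is a positive reaction `f` (with globally Lipschitz
derivative, hence of class `C^{1,γ}` for every `γ`) and a uniformly smooth epigraph on which
`-Δu = f(u)`, `u = 0` on the boundary, has two distinct positive bounded solutions.

The domain is `{z > -exp(2 √(1 + |y|²)) cos x₀}` with `y ∈ R³`; the reaction satisfies
`f(u) = u` for `u ≤ 1/2`.
-/

namespace Pool.Agent.Results.MP_3eb465_an.EpigraphNonuniqueness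

open Pool.Agent.Lib.MP_3eb465_an
open scoped ContDiff

/-- In every dimension `d = m + 1 ≥ 5` there are a reaction `f` and a smooth function `φ` such
that for every `γ ∈ (0,1]` the function `f` is a positive reaction of class `C^{1,γ}` and the
epigraph of `φ` is uniformly `C^{2,γ}` smooth, but the Dirichlet problem has two distinct positive
bounded solutions. -/
theorem result (m : ℕ) (hm : 4 ≤ m) : ∃ (f : ℝ → ℝ) (φ : EuclideanSpace ℝ (Fin m) → ℝ),
    ContDiff ℝ ∞ φ ∧
    (∀ γ : ℝ, 0 < γ → γ ≤ 1 → IsPositiveReaction γ f ∧ UniformlySmooth γ (epigraph φ)) ∧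
    ∃ u v : EuclideanSpace ℝ (Fin (m + 1)) → ℝ, IsPositiveBoundedSolution f (epigraph φ) u ∧
      IsPositiveBoundedSolution f (epigraph φ) v ∧ ∃ x ∈ epigraph φ, u x ≠ v x :=
  Main.main m hm

end Pool.Agent.Results.MP_3eb465_an.EpigraphNonuniqueness
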